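import Pool.Agent.Lib_helper15.Bishop.Defs

/-!
# Module H: two orbit functions give a hyperinvariant subspace
-/

set_option autoImplicit false

universe u

namespace Pool.Agent.Bishop

open MeasureTheory Set Filter
open scoped ENNReal NNReal Topology

section Pair

variable {X : Type u} [MeasurableSpace X] (μ : Measure X)
variable (p q : ℝ≥0∞) [Fact (1 ≤ p)] [Fact (1 ≤ q)] [ENNReal.HolderConjugate p q]

/-- the pairing `∫ f g` between `L^p` and `L^q`. -/
noncomputable def pairH : Lp ℂ p μ →L[ℂ] Lp ℂ q μ →L[ℂ] ℂ :=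
  (ContinuousLinearMap.mul ℂ ℂ).lpPairing μ p q

theorem pairH_apply (f : Lp ℂ p μ) (g : Lp ℂ q μ) :
    pairH μ p q f g = ∫ x, (f : X → ℂ) x * (g : X → ℂ) x ∂μ := by
  unfold pairH
  rw [ContinuousLinearMap.lpPairing_eq_integral]
  simp

/-- the pairing separates points of `L^q`. -/
theorem pairH_sep [SigmaFinite μ] (g : Lp ℂ q μ) (h : ∀ f : Lp ℂ p μ, pairH μ p q f g = 0) :
    g = 0 := by
  have hq1 : (1 : ℝ≥0∞) ≤ q := Fact.out
  have hint : ∀ s, MeasurableSet s → μ s < ∞ → IntegrableOn (g : X → ℂ) s μ := by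
    intro s _ hμ
    have hg : MemLp (g : X → ℂ) q (μ.restrict s) := (Lp.memLp g).restrict s
    have : IsFiniteMeasure (μ.restrict s) := ⟨by simpa using hμ⟩
    exact hg.integrable hq1
  have hz : ∀ s : Set X, MeasurableSet s → μ s < ∞ → ∫ x in s, (g : X → ℂ) x ∂μ = 0 := by
    intro s hs hμ
    have h1 := h (indicatorConstLp p hs hμ.ne (1 : ℂ))
    rw [pairH_apply] at h1
    rw [← h1, ← integral_indicator hs]
    refine integral_congr_ae ?_
    filter_upwards [indicatorConstLp_coeFn (p := p) (hs := hs) (hμs := hμ.ne) (c := (1 : ℂ))]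
      with x hx
    rw [hx]
    by_cases hxs : x ∈ s <;> simp [hxs]
  have := ae_eq_zero_of_forall_setIntegral_eq_of_sigmaFinite hint hz
  exact (Lp.eq_zero_iff_ae_eq_zero).2 this

end Pair

/-- (H) from (L). -/
theorem modH (hL : ModL) : ModH.{u} := by
  intro X _ μ _ τ hτ hτs w hw hwb p q _ _ _ T hT U V C a ha hab hU hV hUe hVe hUb hVb hU0 hV0
  classical
  -- `U (z+1) = T (U z)`
  have hUT : ∀ z : ℂ, |z.re| < 2 → |z.re + 1| < 2 → U (z + 1) = T (U z) := by
    intro z h1 h2
    apply Lp.ext
    exact (hUe z h1 h2).trans (hT (U z)).symm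
  -- measure preserving inverse
  let τe : X ≃ᵐ X := ⟨τ, hτ.measurable, hτs⟩
  have hτi : MeasurePreserving τ.symm μ μ := by
    have := MeasurePreserving.symm τe hτ
    exact this
  -- the functional
  let P := pairH μ p q
  -- duality
  have hdual : ∀ (f : Lp ℂ p μ) (g g' : Lp ℂ q μ),
      ((g' : X → ℂ) =ᵐ[μ] fun t => -(w (τ.symm t)) * (g : X → ℂ) (τ.symm t)) →
      P (T f) g = - P f g' := by
    intro f g g' hg
    show pairH μ p q (T f) g = - pairH μ p q f g'
    rw [pairH_apply, pairH_apply]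
    have e1 : ∫ x, (T f : X → ℂ) x * (g : X → ℂ) x ∂μ
        = ∫ x, (w x * (f : X → ℂ) (τ x)) * (g : X → ℂ) x ∂μ := by
      refine integral_congr_ae ?_
      filter_upwards [hT f] with x hx
      rw [hx]
    have e2 : ∫ x, (f : X → ℂ) x * (g' : X → ℂ) x ∂μ
        = ∫ x, (f : X → ℂ) x * (-(w (τ.symm x)) * (g : X → ℂ) (τ.symm x)) ∂μ := by
      refine integral_congr_ae ?_
      filter_upwards [hg] with x hx
      rw [hx]
    rw [e1, e2]
    have e3 : ∫ x, (w x * (f : X → ℂ) (τ x)) * (g : X → ℂ) x ∂μ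
        = ∫ x, (w (τ.symm x) * (f : X → ℂ) x) * (g : X → ℂ) (τ.symm x) ∂μ := by
      have := hτi.integral_comp τe.symm.measurableEmbedding
        (fun x => (w x * (f : X → ℂ) (τ x)) * (g : X → ℂ) x)
      rw [← this]
      simp
    rw [e3, ← integral_neg]
    refine integral_congr_ae (Eventually.of_forall fun x => ?_)
    simp only
    ring
  -- the key vanishing
  have hkey : ∀ A : Lp ℂ p μ →L[ℂ] Lp ℂ p μ, A * T = T * A → P (A (U 0)) (V 0) = 0 := by
    intro A hA
    have hAT : ∀ f, A (T f) = T (A f) := fun f => by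
      have := congrArg (fun S : Lp ℂ p μ →L[ℂ] Lp ℂ p μ => S f) hA
      simpa using this
    let h : ℂ → ℂ := fun z => Complex.exp (-(Complex.I * Real.pi * z)) * P (A (U z)) (V (-z))
    have hd : DifferentiableOn ℂ h {z | |z.re| < 2} := by
      have hneg : MapsTo (fun z : ℂ => -z) {z : ℂ | |z.re| < 2} {z : ℂ | |z.re| < 2} := by
        intro z hz
        simpa using hz
      have h1 : DifferentiableOn ℂ (fun z : ℂ => V (-z)) {z | |z.re| < 2} :=
        hV.comp (differentiableOn_id.neg) hneg
      have h2 : DifferentiableOn ℂ (fun z : ℂ => A (U z)) {z | |z.re| < 2} :=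
        A.differentiable.comp_differentiableOn hU
      have h3 : DifferentiableOn ℂ (fun z : ℂ => P (A (U z))) {z | |z.re| < 2} :=
        P.differentiable.comp_differentiableOn h2
      have h4 : DifferentiableOn ℂ (fun z : ℂ => P (A (U z)) (V (-z))) {z | |z.re| < 2} :=
        h3.clm_apply h1
      refine DifferentiableOn.mul ?_ h4
      exact (Complex.differentiable_exp.comp
        ((differentiable_const _).mul differentiable_id).neg).differentiableOn
    have hper : ∀ z : ℂ, |z.re| < 2 → |z.re + 1| < 2 → h (z + 1) = h z := by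
      intro z h1 h2
      have e1 : U (z + 1) = T (U z) := hUT z h1 h2
      have e2 := hVe (-(z + 1)) (by
        have : (-(z + 1)).re = -(z.re + 1) := by simp
        rw [this, abs_neg]; exact h2) (by
        have : (-(z + 1)).re + 1 = -z.re := by simp
        rw [this, abs_neg]; exact h1)
      have e3 : -(z + 1) + 1 = -z := by ring
      rw [e3] at e2
      have e4 := hdual (A (U z)) (V (-(z + 1))) (V (-z)) e2
      show Complex.exp (-(Complex.I * Real.pi * (z + 1))) * P (A (U (z + 1))) (V (-(z + 1))) =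
        Complex.exp (-(Complex.I * Real.pi * z)) * P (A (U z)) (V (-z))
      rw [e1, hAT, e4]
      have e5 : -(Complex.I * Real.pi * (z + 1)) = -(Complex.I * Real.pi * z)
          - Real.pi * Complex.I := by ring
      rw [e5, Complex.exp_sub, Complex.exp_pi_mul_I]
      ring
    have hC0 : 0 ≤ C := by
      have := hUb 0 (by simp)
      have h2 : 0 < Real.exp (a * |(0 : ℂ).im|) := Real.exp_pos _
      have h3 : 0 ≤ C * Real.exp (a * |(0 : ℂ).im|) := (norm_nonneg _).trans this
      exact nonneg_of_mul_nonneg_left h3 h2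
    have hbd : ∀ z : ℂ, |z.re| < 2 →
        ‖h z‖ ≤ (‖P‖ * ‖A‖ * C * C) * Real.exp (Real.pi * z.im + 2 * a * |z.im|) := by
      intro z hz
      have b1 := hUb z hz
      have b2 := hVb (-z) (by simpa using hz)
      have b3 : ‖P (A (U z)) (V (-z))‖ ≤ ‖P‖ * (‖A‖ * ‖U z‖) * ‖V (-z)‖ :=
        (P.le_opNorm₂ _ _).trans (by gcongr; exact A.le_opNorm _)
      have b4 : ‖Complex.exp (-(Complex.I * Real.pi * z))‖ = Real.exp (Real.pi * z.im) := by
        rw [Complex.norm_exp]
        congr 1
        simp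
      show ‖Complex.exp (-(Complex.I * Real.pi * z)) * P (A (U z)) (V (-z))‖ ≤ _
      rw [norm_mul, b4]
      have b5 : ‖V (-z)‖ ≤ C * Real.exp (a * |z.im|) := by simpa using b2
      calc Real.exp (Real.pi * z.im) * ‖P (A (U z)) (V (-z))‖
          ≤ Real.exp (Real.pi * z.im) * (‖P‖ * (‖A‖ * (C * Real.exp (a * |z.im|)))
              * (C * Real.exp (a * |z.im|))) := by
            refine mul_le_mul_of_nonneg_left (b3.trans ?_) (Real.exp_pos _).le
            gcongr
        _ = (‖P‖ * ‖A‖ * C * C) * (Real.exp (Real.pi * z.im) *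
              (Real.exp (a * |z.im|) * Real.exp (a * |z.im|))) := by ring
        _ = _ := by
            rw [← Real.exp_add, ← Real.exp_add]
            congr 2
            ring
    have := hL h _ (2 * a) (by positivity) hab hd hper hbd
    simpa [h] using this
  -- the submodule
  let M₀ : Submodule ℂ (Lp ℂ p μ) :=
    { carrier := {x | ∃ A : Lp ℂ p μ →L[ℂ] Lp ℂ p μ, A * T = T * A ∧ A (U 0) = x}
      add_mem' := by
        rintro x y ⟨A, hA, rfl⟩ ⟨B, hB, rfl⟩
        exact ⟨A + B, by rw [add_mul, mul_add, hA, hB], by simp⟩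
      zero_mem' := ⟨0, by simp, by simp⟩
      smul_mem' := by
        rintro c x ⟨A, hA, rfl⟩
        exact ⟨c • A, by rw [smul_mul_assoc, mul_smul_comm, hA], by simp⟩ }
  have hM0 : ∀ x ∈ M₀, P x (V 0) = 0 := by
    rintro x ⟨A, hA, rfl⟩
    exact hkey A hA
  let M := M₀.topologicalClosure
  have hMz : ∀ x ∈ M, P x (V 0) = 0 := by
    intro x hx
    have hcl : IsClosed {x : Lp ℂ p μ | P x (V 0) = 0} := by
      have hc : Continuous fun x : Lp ℂ p μ => P x (V 0) := by
        have : (fun x : Lp ℂ p μ => P x (V 0)) = fun x => P.flip (V 0) x := by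
          ext x; rfl
        rw [this]
        exact (P.flip (V 0)).continuous
      exact isClosed_eq hc continuous_const
    have hsub : closure (M₀ : Set (Lp ℂ p μ)) ⊆ {x : Lp ℂ p μ | P x (V 0) = 0} :=
      closure_minimal (fun x hx => hM0 x hx) hcl
    exact hsub hx
  refine ⟨M, M₀.isClosed_topologicalClosure, ?_, ?_, ?_⟩
  · intro hbot
    have : U 0 ∈ M := M₀.le_topologicalClosure ⟨1, by simp, by simp⟩
    rw [hbot] at this
    exact hU0 (by simpa using this)
  · intro htop
    apply hV0
    apply pairH_sep μ p q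
    intro f
    have : f ∈ M := by rw [htop]; trivial
    exact hMz f this
  · intro A hA x hx
    have hmap : MapsTo (A : Lp ℂ p μ → Lp ℂ p μ) (M₀ : Set (Lp ℂ p μ)) (M₀ : Set (Lp ℂ p μ)) := by
      rintro y ⟨B, hB, rfl⟩
      exact ⟨A * B, by rw [mul_assoc, hB, ← mul_assoc, hA, mul_assoc], by simp⟩
    exact hmap.closure A.continuous hx

end Pool.Agent.Bishop
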